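import Mathlib

/-! # Random walks on groups: Liouville property, algebraic recurrence, entropy -/

open MeasureTheory

set_option autoImplicit false

namespace Pool.Agent.Lib.MP_a29a94_pr.FE

section Defs

variable {G : Type} [Group G]

/-- the random walk: `walk ζ n = ζ 0 * ζ 1 * ... * ζ (n-1)` -/
def walk (ζ : ℕ → G) : ℕ → G
  | 0 => 1
  | n + 1 => walk ζ n * ζ n

/-- symmetric step law -/
def SymmetricLaw (μ : PMF G) : Prop := ∀ g : G, μ g = μ g⁻¹

/-- the support generates the group -/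
def NondegenerateLaw (μ : PMF G) : Prop := Subgroup.closure μ.support = ⊤

/-- every bounded harmonic function is constant -/
def LiouvilleLaw (μ : PMF G) : Prop :=
  ∀ f : G → ℝ, (∃ C : ℝ, ∀ g, |f g| ≤ C) →
    (∀ g, f g = ∑' h, (μ h).toReal * f (g * h)) → ∀ g h, f g = f h

/-- law of the sequence of i.i.d. increments -/
noncomputable def incrementLaw (μ : PMF G) :
    @Measure (ℕ → G) (@MeasurableSpace.pi ℕ (fun _ => G) (fun _ => ⊤)) :=
  letI : MeasurableSpace G := ⊤
  Measure.infinitePi (fun _ : ℕ => μ.toMeasure)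

/-- the subsemigroup generated by `X_n, X_{n+1}, ...` -/
def tailSemigroup (ζ : ℕ → G) (n : ℕ) : Subsemigroup G :=
  Subsemigroup.closure {g | ∃ m, n ≤ m ∧ walk ζ m = g}

/-- algebraic recurrence -/
def AlgebraicallyRecurrent (μ : PMF G) : Prop :=
  ∀ n : ℕ, 1 ≤ n → ∀ᵐ ζ ∂(incrementLaw μ), tailSemigroup ζ n = ⊤

/-- finite Shannon entropy: `-∑ g, μ g * log (μ g) < ∞` (`Real.negMulLog x = -x * Real.log x`) -/
def FiniteEntropy (μ : PMF G) : Prop := Summable fun g => Real.negMulLog (μ g).toReal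

end Defs

end Pool.Agent.Lib.MP_a29a94_pr.FE
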