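import Pool.Agent.Lib.MP_a29a94_pr.FE.Defs

/-! # A Liouville random walk of finite entropy which is not algebraically recurrent -/

open MeasureTheory

set_option autoImplicit false
set_option linter.unusedSectionVars false

namespace Pool.Agent.Lib.MP_a29a94_pr.FE


/-! the ambient group -/

/-- pairs (integer, function of a real parameter) -/
@[ext] structure W where
  n : ℤ
  F : ℝ → ℝ

namespace W

noncomputable instance : Mul W := ⟨fun a b => ⟨a.n + b.n, fun y => a.F y + Real.exp (a.n * y) * b.F y⟩⟩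
noncomputable instance : One W := ⟨⟨0, fun _ => 0⟩⟩
noncomputable instance : Inv W := ⟨fun a => ⟨-a.n, fun y => -(Real.exp (-(a.n * y)) * a.F y)⟩⟩

@[simp] lemma mul_n (a b : W) : (a * b).n = a.n + b.n := rfl
@[simp] lemma mul_F (a b : W) (y : ℝ) :
    (a * b).F y = a.F y + Real.exp (a.n * y) * b.F y := rfl
@[simp] lemma one_n : (1 : W).n = 0 := rfl
@[simp] lemma one_F (y : ℝ) : (1 : W).F y = 0 := rfl
@[simp] lemma inv_n (a : W) : (a⁻¹).n = -a.n := rfl
@[simp] lemma inv_F (a : W) (y : ℝ) : (a⁻¹).F y = -(Real.exp (-(a.n * y)) * a.F y) := rfl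

noncomputable instance : Group W :=
  Group.ofLeftAxioms
    (by
      intro a b c
      ext y
      · simp [add_assoc]
      · simp only [mul_F, mul_n]
        push_cast
        rw [add_mul, Real.exp_add]
        ring)
    (by
      intro a
      ext y
      · simp
      · simp)
    (by
      intro a
      ext y
      · simp
      · simp only [mul_F, inv_F, inv_n, one_F]
        push_cast
        rw [neg_mul]
        ring)

/-- projection to the integers -/
noncomputable def proj : W →* Multiplicative ℤ where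
  toFun a := Multiplicative.ofAdd a.n
  map_one' := rfl
  map_mul' _ _ := rfl

/-- translations -/
noncomputable def trans : Multiplicative (ℝ → ℝ) →* W where
  toFun f := ⟨0, Multiplicative.toAdd f⟩
  map_one' := rfl
  map_mul' f g := by
    ext y
    · simp
    · simp

lemma solvableW : Group.IsSolvable W := by
  refine Group.isSolvable_of_ker_le_range trans proj ?_
  intro a ha
  rw [MonoidHom.mem_ker] at ha
  have h : a.n = 0 := by
    have := congrArg Multiplicative.toAdd ha
    simpa [proj] using this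
  exact ⟨Multiplicative.ofAdd a.F, by ext y <;> simp [trans, h]⟩

end W

/-- base generator -/
noncomputable def tW : W := ⟨1, fun _ => 0⟩
/-- lamp generator -/
noncomputable def dW : W := ⟨0, fun _ => 1⟩

/-- the group generated by the two generators -/
noncomputable def GG : Subgroup W := Subgroup.closure {tW, dW}

lemma tW_mem : tW ∈ GG := Subgroup.subset_closure (by simp)
lemma dW_mem : dW ∈ GG := Subgroup.subset_closure (by simp)

/-- midpoint-convex bounded functions on the integers are constant -/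
lemma convex_const (w : ℤ → ℝ) (C : ℝ) (hC : ∀ m, |w m| ≤ C)
    (hw : ∀ m, 2 * w m ≤ w (m + 1) + w (m - 1)) : ∀ m m', w m = w m' := by
  have hinc : ∀ m, w m - w (m - 1) ≤ w (m + 1) - w m := fun m => by linarith [hw m]
  -- increments nonnegative direction
  have hup : ∀ m, w (m + 1) - w m ≤ 0 := by
    intro m
    by_contra hcon
    push Not at hcon
    set d := w (m + 1) - w m with hd
    have h1 : ∀ j : ℕ, d ≤ w (m + j + 1) - w (m + j) := by
      intro j
      induction j with
      | zero => simp [hd]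
      | succ j ih =>
        have := hinc (m + j + 1)
        have e1 : m + (j:ℤ) + 1 - 1 = m + j := by ring
        have e2 : m + ((j + 1 : ℕ) : ℤ) = m + j + 1 := by push_cast; ring
        rw [e1] at this
        rw [e2]
        linarith
    have h2 : ∀ j : ℕ, w m + j * d ≤ w (m + j) := by
      intro j
      induction j with
      | zero => simp
      | succ j ih =>
        have := h1 j
        have e2 : m + ((j + 1 : ℕ) : ℤ) = m + j + 1 := by push_cast; ring
        rw [e2]
        push_cast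
        linarith
    obtain ⟨j, hj⟩ := exists_nat_gt (2 * C / d)
    rw [div_lt_iff₀ hcon] at hj
    have h3 := h2 j
    have h4 := abs_le.1 (hC m)
    have h5 := abs_le.1 (hC (m + j))
    linarith
  have hdown : ∀ m, 0 ≤ w (m + 1) - w m := by
    intro m
    by_contra hcon
    push Not at hcon
    set d := w m - w (m + 1) with hd
    have hd0 : 0 < d := by linarith
    have h1 : ∀ j : ℕ, w (m - j + 1) - w (m - j) ≤ -d := by
      intro j
      induction j with
      | zero => simp [hd]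
      | succ j ih =>
        have := hinc (m - j)
        have e2 : m - ((j + 1 : ℕ) : ℤ) = m - j - 1 := by push_cast; ring
        rw [e2]
        have e3 : m - (j:ℤ) - 1 + 1 = m - j := by ring
        rw [e3]
        linarith
    have h2 : ∀ j : ℕ, w (m + 1) + (j + 1) * d ≤ w (m - j) := by
      intro j
      induction j with
      | zero => simp [hd]
      | succ j ih =>
        have := h1 (j + 1)
        have e2 : m - ((j + 1 : ℕ) : ℤ) + 1 = m - j := by push_cast; ring
        rw [e2] at this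
        push_cast at this ⊢
        linarith
    obtain ⟨j, hj⟩ := exists_nat_gt (2 * C / d)
    rw [div_lt_iff₀ hd0] at hj
    have h3 := h2 j
    have h4 := abs_le.1 (hC (m + 1))
    have h5 := abs_le.1 (hC (m - j))
    linarith
  have hstep : ∀ m, w (m + 1) = w m := fun m => by linarith [hup m, hdown m]
  have h0 : ∀ m, w m = w 0 := by
    intro m
    induction m using Int.induction_on with
    | zero => rfl
    | succ i ih => rw [hstep]; exact ih
    | pred i ih =>
      have := hstep (-(i:ℤ) - 1)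
      rw [← ih, ← this]
      congr 1; ring
  intro m m'
  rw [h0 m, h0 m']


section Liouville

variable {G : Type} [Group G] (nn : G → ℤ) (φ : ℕ × Bool → G) (w : ℕ × Bool → ℝ)

/-- harmonic for the step law given by weights `w` on steps `φ` -/
def Harm (f : G → ℝ) : Prop := ∀ g, f g = ∑' x, w x * f (g * φ x)

lemma summable_step {φ : ℕ × Bool → G} {w : ℕ × Bool → ℝ} (hw0 : ∀ x, 0 < w x)
    (hw1 : HasSum w 1) {f : G → ℝ} {C : ℝ}
    (hf : ∀ g, |f g| ≤ C) (g : G) : Summable (fun x => w x * f (g * φ x)) := by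
  apply Summable.of_norm_bounded (g := fun x => w x * C) (hw1.summable.mul_right C)
  intro x
  rw [Real.norm_eq_abs, abs_mul, abs_of_pos (hw0 x)]
  exact mul_le_mul_of_nonneg_left (hf _) (hw0 x).le

/-- one-step maximum principle -/
lemma max_step {φ : ℕ × Bool → G} {w : ℕ × Bool → ℝ} (hw0 : ∀ x, 0 < w x)
    (hw1 : HasSum w 1) {f : G → ℝ} {C : ℝ} (hf : ∀ g, |f g| ≤ C)
    (hh : Harm φ w f) {s : ℝ} (hs : ∀ g, f g ≤ s) {g : G} {ε : ℝ}
    (hg : s - ε ≤ f g) (x : ℕ × Bool) : s - ε / w x ≤ f (g * φ x) := by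
  have h1 : HasSum (fun z => w z * f (g * φ z)) (f g) := by
    rw [hh g]; exact (summable_step hw0 hw1 hf g).hasSum
  have h2 : HasSum (fun z => w z * (s - f (g * φ z))) (s - f g) := by
    have := (hw1.mul_right s).sub h1
    simp only [one_mul] at this
    refine this.congr_fun (fun z => ?_)
    ring
  have h3 : w x * (s - f (g * φ x)) ≤ s - f g :=
    le_hasSum h2 x (fun z _ => mul_nonneg (hw0 z).le (by linarith [hs (g * φ z)]))
  have h4 : w x * (s - f (g * φ x)) ≤ ε := by linarith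
  have h5 : s - f (g * φ x) ≤ ε / w x := by
    rw [le_div_iff₀ (hw0 x)]; linarith
  linarith

/-- multi-step maximum principle -/
lemma max_multi {φ : ℕ × Bool → G} {w : ℕ × Bool → ℝ} (hw0 : ∀ x, 0 < w x)
    (hw1 : HasSum w 1) (hinv : ∀ x, (φ x)⁻¹ = φ (x.1, !x.2))
    (hgen : Subgroup.closure (Set.range φ) = ⊤) (a : G) :
    ∃ c : ℝ, 0 < c ∧ ∀ (f : G → ℝ), (∃ C : ℝ, ∀ g, |f g| ≤ C) → Harm φ w f →
      ∀ s : ℝ, (∀ g, f g ≤ s) → ∀ g ε, 0 ≤ ε → s - ε ≤ f g → s - c * ε ≤ f (g * a) := by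
  have ha : a ∈ Subgroup.closure (Set.range φ) := by rw [hgen]; trivial
  have hgenm : a ∈ Submonoid.closure (Set.range φ) := by
    have h1 : (Subgroup.closure (Set.range φ)).toSubmonoid = Submonoid.closure (Set.range φ) := by
      rw [Subgroup.closure_toSubmonoid]
      congr 1
      apply Set.union_eq_self_of_subset_right
      rintro _ ⟨x, hx⟩
      refine ⟨(x.1, !x.2), ?_⟩
      rw [← hinv, hx, inv_inv]
    rw [← h1]; exact ha
  induction hgenm using Submonoid.closure_induction with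
  | mem y hy =>
    obtain ⟨x, rfl⟩ := hy
    refine ⟨1 / w x, by have := hw0 x; positivity, ?_⟩
    rintro f ⟨C, hC⟩ hh s hs g ε _ hg
    have := max_step hw0 hw1 hC hh hs hg x
    rw [one_div_mul_eq_div]; exact this
  | one =>
    refine ⟨1, one_pos, ?_⟩
    intro f _ _ s _ g ε _ hg
    rw [mul_one, one_mul]; exact hg
  | mul y z _ _ ihy ihz =>
    have hy : y ∈ Subgroup.closure (Set.range φ) := by rw [hgen]; trivial
    have hz : z ∈ Subgroup.closure (Set.range φ) := by rw [hgen]; trivial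
    obtain ⟨c1, hc1, h1⟩ := ihy hy
    obtain ⟨c2, hc2, h2⟩ := ihz hz
    refine ⟨c2 * c1, by positivity, ?_⟩
    intro f hf hh s hs g ε hε hg
    have h3 := h1 f hf hh s hs g ε hε hg
    have h4 := h2 f hf hh s hs (g * y) (c1 * ε) (by positivity) h3
    rw [mul_assoc, ← mul_assoc g]; exact h4

lemma split_sum {φ : ℕ × Bool → G} {w : ℕ × Bool → ℝ} {nn : G → ℤ}
    (hmul : ∀ a b, nn (a * b) = nn a + nn b)
    (h0t : nn (φ (0, true)) = 1) (h0f : nn (φ (0, false)) = -1)
    (hk : ∀ k b, 1 ≤ k → nn (φ (k, b)) = 0) (hw1 : HasSum w 1)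
    (hww : w (0, true) = w (0, false)) (W : ℤ → ℝ) (g : G) :
    HasSum (fun x => w x * W (nn (g * φ x)))
      (W (nn g) + w (0, true) * (W (nn g + 1) + W (nn g - 1) - 2 * W (nn g))) := by
  have h1 : HasSum (fun x => w x * W (nn g)) (W (nn g)) := by
    have := hw1.mul_right (W (nn g)); rwa [one_mul] at this
  have h2 : HasSum (fun x => w x * (W (nn (g * φ x)) - W (nn g)))
      (∑ x ∈ ({(0, true), (0, false)} : Finset (ℕ × Bool)),
        w x * (W (nn (g * φ x)) - W (nn g))) := by
    apply hasSum_sum_of_ne_finset_zero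
    rintro ⟨k, b⟩ hx
    have hk1 : 1 ≤ k := by
      by_contra hcon
      have : k = 0 := by omega
      subst this
      apply hx
      cases b <;> simp
    rw [hmul, hk k b hk1, add_zero, sub_self, mul_zero]
  have h3 := h1.add h2
  rw [Finset.sum_pair (by simp)] at h3
  rw [hmul, hmul, h0t, h0f, ← hww] at h3
  have e1 : (fun x => w x * W (nn (g * φ x))) =
      fun x => w x * W (nn g) + w x * (W (nn (g * φ x)) - W (nn g)) := by
    funext x; ring
  rw [e1]
  convert h3 using 1
  have e2 : nn g + -1 = nn g - 1 := by ring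
  rw [e2]
  ring

/-- the supremum over every level is the global supremum -/
lemma level_sup {φ : ℕ × Bool → G} {w : ℕ × Bool → ℝ} {nn : G → ℤ} (hw0 : ∀ x, 0 < w x)
    (hw1 : HasSum w 1) (hmul : ∀ a b, nn (a * b) = nn a + nn b)
    (h0t : nn (φ (0, true)) = 1) (h0f : nn (φ (0, false)) = -1)
    (hk : ∀ k b, 1 ≤ k → nn (φ (k, b)) = 0)
    (hww : w (0, true) = w (0, false)) (hsurj : Function.Surjective nn)
    {u : G → ℝ} {C : ℝ} (hC : ∀ g, |u g| ≤ C) (hh : Harm φ w u) (g0 : G) (m : ℤ) {ε : ℝ}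
    (hε : 0 < ε) : ∃ g, nn g = m ∧ u g0 - ε ≤ u g := by
  set W : ℤ → ℝ := fun m => sSup (u '' {g | nn g = m}) with hW
  have hne : ∀ m, (u '' {g | nn g = m}).Nonempty := by
    intro m
    obtain ⟨g, hg⟩ := hsurj m
    exact ⟨u g, g, hg, rfl⟩
  have hbdd : ∀ m, BddAbove (u '' {g | nn g = m}) := by
    intro m
    refine ⟨C, ?_⟩
    rintro _ ⟨g, _, rfl⟩
    exact (abs_le.1 (hC g)).2
  have hle : ∀ g, u g ≤ W (nn g) := fun g => le_csSup (hbdd _) ⟨g, rfl, rfl⟩
  have hWC : ∀ m, |W m| ≤ C := by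
    intro m
    rw [abs_le]
    constructor
    · obtain ⟨g, hg⟩ := hsurj m
      have h1 := hle g
      rw [hg] at h1
      linarith [(abs_le.1 (hC g)).1]
    · apply csSup_le (hne m)
      rintro _ ⟨g, _, rfl⟩
      exact (abs_le.1 (hC g)).2
  have hconv : ∀ m, 2 * W m ≤ W (m + 1) + W (m - 1) := by
    intro m
    have hp : 0 < w (0, true) := hw0 _
    have key : ∀ g, nn g = m → u g ≤
        W m + w (0, true) * (W (m + 1) + W (m - 1) - 2 * W m) := by
      intro g hg
      have h1 := split_sum hmul h0t h0f hk hw1 hww W g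
      have h2 : HasSum (fun z => w z * u (g * φ z)) (u g) := by
        rw [hh g]; exact (summable_step hw0 hw1 hC g).hasSum
      have h3 := hasSum_le (fun x => mul_le_mul_of_nonneg_left (hle (g * φ x)) (hw0 x).le) h2 h1
      rw [hg] at h3
      exact h3
    have h4 : W m ≤ W m + w (0, true) * (W (m + 1) + W (m - 1) - 2 * W m) := by
      apply csSup_le (hne m)
      rintro _ ⟨g, hg, rfl⟩
      exact key g hg
    by_contra hcon
    push Not at hcon
    have : w (0, true) * (W (m + 1) + W (m - 1) - 2 * W m) < 0 :=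
      mul_neg_of_pos_of_neg hp (by linarith)
    linarith
  have hconst := convex_const W C hWC hconv (nn g0) m
  have h1 : u g0 - ε < W m := by
    have := hle g0
    rw [hconst] at this
    linarith
  obtain ⟨_, ⟨g, hg, rfl⟩, hlt⟩ := exists_lt_of_lt_csSup (hne m) h1
  exact ⟨g, hg, hlt.le⟩

/-- invariance under left multiplication by kernel elements: one inequality -/
lemma left_le {φ : ℕ × Bool → G} {w : ℕ × Bool → ℝ} {nn : G → ℤ} (hw0 : ∀ x, 0 < w x)
    (hw1 : HasSum w 1) (hmul : ∀ a b, nn (a * b) = nn a + nn b)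
    (hcomm : ∀ a b, nn a = 0 → nn b = 0 → a * b = b * a)
    (h0t : nn (φ (0, true)) = 1) (h0f : nn (φ (0, false)) = -1)
    (hk : ∀ k b, 1 ≤ k → nn (φ (k, b)) = 0)
    (hww : w (0, true) = w (0, false)) (hsurj : Function.Surjective nn)
    (hinv : ∀ x, (φ x)⁻¹ = φ (x.1, !x.2))
    (hgen : Subgroup.closure (Set.range φ) = ⊤)
    {f : G → ℝ} {C : ℝ} (hC : ∀ g, |f g| ≤ C) (hh : Harm φ w f) (a : G) (ha : nn a = 0) (g : G) :
    f (a * g) ≤ f g := by
  by_contra hcon
  push Not at hcon
  set u : G → ℝ := fun g => f (a * g) - f g with hu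
  have huC : ∀ g, |u g| ≤ 2 * C := by
    intro g
    have h1 := abs_le.1 (hC (a * g))
    have h2 := abs_le.1 (hC g)
    rw [abs_le]
    constructor <;> simp only [hu] <;> linarith
  have huh : Harm φ w u := by
    intro g
    have h1 : HasSum (fun z => w z * f (a * g * φ z)) (f (a * g)) := by
      rw [hh (a * g)]; exact (summable_step hw0 hw1 hC (a * g)).hasSum
    have h2 : HasSum (fun z => w z * f (g * φ z)) (f g) := by
      rw [hh g]; exact (summable_step hw0 hw1 hC g).hasSum
    have h3 := (h1.sub h2).tsum_eq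
    change f (a * g) - f g = _
    rw [← h3]
    congr 1
    funext z
    simp only [hu]
    rw [mul_assoc]; ring
  set s := sSup (Set.range u) with hs
  have hbdd : BddAbove (Set.range u) := ⟨2 * C, by
    rintro _ ⟨g, rfl⟩; exact (abs_le.1 (huC g)).2⟩
  have hle : ∀ g, u g ≤ s := fun g => le_csSup hbdd ⟨g, rfl⟩
  have hs0 : 0 < s := lt_of_lt_of_le (by simp only [hu]; linarith : 0 < u g) (hle g)
  obtain ⟨c, hc0, hc⟩ := max_multi hw0 hw1 hinv hgen a
  -- number of steps
  obtain ⟨J, hJ⟩ := exists_nat_gt ((2 * C + 1) / s)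
  rw [div_lt_iff₀ hs0] at hJ
  -- constant
  set K : ℝ := ∑ j ∈ Finset.range J, c ^ j with hK
  have hK0 : 0 ≤ K := Finset.sum_nonneg (fun j _ => by positivity)
  set ε : ℝ := 1 / (2 * (K + 1)) with hε
  have hε0 : 0 < ε := by positivity
  -- near maximiser at level 0
  obtain ⟨_, ⟨g1, rfl⟩, hg1⟩ := exists_lt_of_lt_csSup (Set.range_nonempty u)
    (show s - ε < s by linarith)
  obtain ⟨g2, hg2, hg2'⟩ := level_sup hw0 hw1 hmul h0t h0f hk hww hsurj huC huh g1 0 hε0
  have hg2'' : s - 2 * ε ≤ u g2 := by linarith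
  have hstep : ∀ j : ℕ, s - c ^ j * (2 * ε) ≤ u (g2 * a ^ j) := by
    intro j
    induction j with
    | zero => simpa using hg2''
    | succ j ih =>
      have := hc u ⟨2 * C, huC⟩ huh s hle (g2 * a ^ j) (c ^ j * (2 * ε)) (by positivity) ih
      have e1 : g2 * a ^ (j + 1) = g2 * a ^ j * a := by rw [pow_succ, mul_assoc]
      have e2 : c ^ (j + 1) * (2 * ε) = c * (c ^ j * (2 * ε)) := by ring
      rw [e1, e2]
      exact this
  have hnn1 : nn 1 = 0 := by
    have := hmul 1 1
    rw [mul_one] at this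
    linarith
  have hnpow : ∀ j : ℕ, nn (a ^ j) = 0 := by
    intro j
    induction j with
    | zero => rw [pow_zero]; exact hnn1
    | succ j ih => rw [pow_succ, hmul, ih, ha]; rfl
  have hval : ∀ j : ℕ, u (g2 * a ^ j) = f (g2 * a ^ (j + 1)) - f (g2 * a ^ j) := by
    intro j
    simp only [hu]
    have : a * (g2 * a ^ j) = g2 * a ^ (j + 1) := by
      have h1 : nn (g2 * a ^ j) = 0 := by rw [hmul, hg2, hnpow]; rfl
      rw [hcomm a _ ha h1, mul_assoc, ← pow_succ]
    rw [this]
  have hsum : ∑ j ∈ Finset.range J, u (g2 * a ^ j) = f (g2 * a ^ J) - f g2 := by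
    simp_rw [hval]
    rw [Finset.sum_range_sub (fun j => f (g2 * a ^ j))]
    simp
  have hlow : (J : ℝ) * s - K * (2 * ε) ≤ ∑ j ∈ Finset.range J, u (g2 * a ^ j) := by
    have := Finset.sum_le_sum (fun j (_ : j ∈ Finset.range J) => hstep j)
    rw [Finset.sum_sub_distrib, Finset.sum_const, Finset.card_range, nsmul_eq_mul,
      ← Finset.sum_mul] at this
    exact this
  have h1 : K * (2 * ε) ≤ 1 := by
    rw [hε]
    have : K * (2 * (1 / (2 * (K + 1)))) = K / (K + 1) := by field_simp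
    rw [this, div_le_one (by linarith)]
    linarith
  have h2 := abs_le.1 (hC (g2 * a ^ J))
  have h3 := abs_le.1 (hC g2)
  rw [hsum] at hlow
  linarith

theorem liouville_of {φ : ℕ × Bool → G} {w : ℕ × Bool → ℝ} {nn : G → ℤ} (hw0 : ∀ x, 0 < w x)
    (hw1 : HasSum w 1) (hmul : ∀ a b, nn (a * b) = nn a + nn b)
    (hcomm : ∀ a b, nn a = 0 → nn b = 0 → a * b = b * a)
    (h0t : nn (φ (0, true)) = 1) (h0f : nn (φ (0, false)) = -1)
    (hk : ∀ k b, 1 ≤ k → nn (φ (k, b)) = 0)
    (hww : w (0, true) = w (0, false)) (hsurj : Function.Surjective nn)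
    (hinv : ∀ x, (φ x)⁻¹ = φ (x.1, !x.2))
    (hgen : Subgroup.closure (Set.range φ) = ⊤)
    {f : G → ℝ} {C : ℝ} (hC : ∀ g, |f g| ≤ C) (hh : Harm φ w f) (g h : G) : f g = f h := by
  have hnn1 : nn 1 = 0 := by
    have := hmul 1 1
    rw [mul_one] at this
    linarith
  have hninv : ∀ a, nn a⁻¹ = - nn a := by
    intro a
    have := hmul a a⁻¹
    rw [mul_inv_cancel, hnn1] at this
    linarith
  have hA : ∀ a, nn a = 0 → ∀ g, f (a * g) = f g := by
    intro a ha g
    apply le_antisymm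
    · exact left_le hw0 hw1 hmul hcomm h0t h0f hk hww hsurj hinv hgen hC hh a ha g
    · have := left_le hw0 hw1 hmul hcomm h0t h0f hk hww hsurj hinv hgen hC hh a⁻¹
        (by rw [hninv, ha]; rfl) (a * g)
      rwa [inv_mul_cancel_left] at this
  have hlev : ∀ g h, nn g = nn h → f g = f h := by
    intro g h hgh
    have := hA (g * h⁻¹) (by rw [hmul, hninv, hgh]; ring) h
    rw [inv_mul_cancel_right] at this
    exact this
  -- factor
  choose r hr using hsurj
  have hfac : ∀ g, f g = f (r (nn g)) := fun g => hlev g _ (hr _).symm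
  have hconst := convex_const (fun m => f (r m)) C (fun m => hC _) (by
    intro m
    have h1 := split_sum hmul h0t h0f hk hw1 hww (fun m => f (r m)) (r m)
    have h2 : HasSum (fun z => w z * f (r m * φ z)) (f (r m)) := by
      rw [hh (r m)]
      exact (summable_step hw0 hw1 hC (r m)).hasSum
    have e : (fun x => w x * f (r (nn (r m * φ x)))) = fun x => w x * f (r m * φ x) := by
      funext x; rw [← hfac]
    rw [e] at h1
    have h3 := h1.unique h2
    simp only [hr] at h3
    have h4 : w (0, true) * (f (r (m + 1)) + f (r (m - 1)) - 2 * f (r m)) = 0 := by linarith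
    have h5 := (mul_eq_zero.1 h4).resolve_left (hw0 _).ne'
    linarith)
  rw [hfac g, hfac h]
  exact hconst _ _

end Liouville

lemma exists_theta (s : ℕ → Bool) : ∃ θ : ℝ, 1 / 2 ≤ Real.cos θ ∧
    ∀ k : ℕ, 2 ≤ k → 1 / 2 ≤ (if s k then 1 else -1) * Real.cos ((12 : ℝ) ^ k * θ) := by
  set e : ℕ → ℝ := fun j => if 2 ≤ j ∧ s j = false then (1 / 12 : ℝ) ^ j else 0 with he
  have he0 : ∀ j, 0 ≤ e j := by
    intro j; simp only [he]; split_ifs <;> positivity
  have he1 : ∀ j, e j ≤ (1 / 12 : ℝ) ^ j := by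
    intro j; simp only [he]; split_ifs
    · exact le_refl _
    · positivity
  have hgeo : Summable (fun j : ℕ => (1 / 12 : ℝ) ^ j) :=
    summable_geometric_of_lt_one (by norm_num) (by norm_num)
  have hsum : Summable e := Summable.of_nonneg_of_le he0 he1 hgeo
  -- tails
  have htail : ∀ k : ℕ, (12 : ℝ) ^ k * ∑' j, e (j + (k + 1)) ≤ 1 / 11 := by
    intro k
    have h1 : ∑' j, e (j + (k + 1)) ≤ ∑' j, (1 / 12 : ℝ) ^ (j + (k + 1)) :=
      Summable.tsum_le_tsum (fun j => he1 _) ((summable_nat_add_iff (k + 1)).2 hsum)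
        ((summable_nat_add_iff (k + 1)).2 hgeo)
    have h2 : ∑' j, (1 / 12 : ℝ) ^ (j + (k + 1)) = (1 / 12 : ℝ) ^ (k + 1) * (12 / 11) := by
      simp_rw [pow_add (1 / 12 : ℝ) _ (k + 1)]
      rw [tsum_mul_right, tsum_geometric_of_lt_one (by norm_num) (by norm_num)]
      ring
    rw [h2] at h1
    calc (12 : ℝ) ^ k * ∑' j, e (j + (k + 1)) ≤
        (12 : ℝ) ^ k * ((1 / 12 : ℝ) ^ (k + 1) * (12 / 11)) :=
          mul_le_mul_of_nonneg_left h1 (by positivity)
      _ = ((12 : ℝ) * (1 / 12)) ^ k * (1 / 11) := by rw [mul_pow, pow_succ]; ring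
      _ = 1 / 11 := by norm_num
  have htail0 : ∀ k : ℕ, 0 ≤ (12 : ℝ) ^ k * ∑' j, e (j + (k + 1)) := fun k =>
    mul_nonneg (by positivity) (tsum_nonneg (fun j => he0 _))
  have h12 : ∀ k : ℕ, (12 : ℝ) ^ k * (1 / 12 : ℝ) ^ k = 1 := by
    intro k; rw [← mul_pow]; norm_num
  have heven : ∀ k : ℕ, ∃ m : ℕ, (12 : ℝ) ^ k * ∑ j ∈ Finset.range k, e j = 2 * m := by
    intro k
    induction k with
    | zero => exact ⟨0, by simp⟩
    | succ k ih =>
      obtain ⟨m, hm⟩ := ih
      rw [Finset.sum_range_succ, mul_add, pow_succ, mul_comm ((12:ℝ) ^ k) 12, mul_assoc, hm,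
        mul_assoc]
      simp only [he]
      split_ifs
      · rw [h12]
        exact ⟨12 * m + 6, by push_cast; ring⟩
      · exact ⟨12 * m, by push_cast; ring⟩
  have hcos : ∀ r : ℝ, 0 ≤ r → r ≤ 1 / 3 → 1 / 2 ≤ Real.cos (Real.pi * r) := by
    intro r h0 h1
    rw [← Real.cos_pi_div_three]
    apply Real.cos_le_cos_of_nonneg_of_le_pi
    · have := Real.pi_pos; positivity
    · have := Real.pi_pos; linarith
    · have := Real.pi_pos
      nlinarith
  refine ⟨Real.pi * ∑' j, e j, ?_, ?_⟩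
  · have h0 := hsum.sum_add_tsum_nat_add 1
    simp only [Finset.range_one, Finset.sum_singleton] at h0
    have h1 : e 0 = 0 := by simp [he]
    have h2 := htail 0
    rw [h1, zero_add] at h0
    simp only [pow_zero, one_mul, zero_add] at h2
    apply hcos
    · exact tsum_nonneg he0
    · rw [← h0]; linarith
  · intro k hk
    have h0 := hsum.sum_add_tsum_nat_add (k + 1)
    obtain ⟨m, hm⟩ := heven k
    have h3 : (12 : ℝ) ^ k * (Real.pi * ∑' j, e j) =
        Real.pi * ((12 : ℝ) ^ k * ∑' j, e (j + (k + 1)) + (12 : ℝ) ^ k * e k) +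
          m * (2 * Real.pi) := by
      rw [← h0, Finset.sum_range_succ]
      have : (12 : ℝ) ^ k * (Real.pi * (∑ x ∈ Finset.range k, e x + e k +
          ∑' (i : ℕ), e (i + (k + 1)))) = Real.pi * ((12 : ℝ) ^ k * ∑' j, e (j + (k + 1)) +
          (12 : ℝ) ^ k * e k) + Real.pi * ((12 : ℝ) ^ k * ∑ x ∈ Finset.range k, e x) := by ring
      rw [this, hm]; ring
    rw [h3, Real.cos_add_nat_mul_two_pi]
    have h4 := htail k
    have h5 := htail0 k
    set r := (12 : ℝ) ^ k * ∑' j, e (j + (k + 1)) with hr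
    cases hs : s k with
    | true =>
      have : e k = 0 := by simp [he, hs]
      rw [this, mul_zero, add_zero]
      simp only [if_true, one_mul]
      exact hcos r h5 (by linarith)
    | false =>
      have : e k = (1 / 12 : ℝ) ^ k := by simp [he, hs, hk]
      rw [this, h12, mul_add, mul_one, Real.cos_add_pi]
      have := hcos r h5 (by linarith)
      simp only [Bool.false_eq_true, if_false]
      linarith

section Gens

/-- lamp amplitude functions -/
noncomputable def amp (k : ℕ) (y : ℝ) : ℝ :=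
  if k = 0 then 0 else if k = 1 then 1 else
    (8 : ℝ) ^ ((k + 1) ^ 2) *
      (Polynomial.Chebyshev.T ℝ ((12 ^ k : ℕ) : ℤ)).eval (Real.exp y)

/-- generators -/
noncomputable def gen (k : ℕ) : W := ⟨if k = 0 then 1 else 0, amp k⟩

lemma poly_mem (p : Polynomial ℤ) :
    (⟨0, fun y => (p.map (Int.castRingHom ℝ)).eval (Real.exp y)⟩ : W) ∈ GG := by
  induction p using Polynomial.induction_on' with
  | add p q hp hq =>
    have := GG.mul_mem hp hq
    convert this using 1
    ext y
    · simp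
    · simp
  | monomial m a =>
    -- conjugate of a power of the lamp generator
    have hd : ∀ a : ℤ, (⟨0, fun _ => (a : ℝ)⟩ : W) ∈ GG := by
      intro a
      have h1 : ∀ n : ℕ, (⟨0, fun _ => (n : ℝ)⟩ : W) ∈ GG := by
        intro n
        induction n with
        | zero =>
          convert GG.one_mem using 1
          ext y <;> simp
        | succ n ih =>
          convert GG.mul_mem ih dW_mem using 1
          ext y <;> simp [dW]
      obtain ⟨n, rfl | rfl⟩ := a.eq_nat_or_neg
      · exact_mod_cast h1 n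
      · convert GG.inv_mem (h1 n) using 1
        ext y <;> simp
    have hc : ∀ m : ℕ, (⟨0, fun y => (a : ℝ) * Real.exp y ^ m⟩ : W) ∈ GG := by
      intro m
      induction m with
      | zero => simpa using hd a
      | succ m ih =>
        convert GG.mul_mem (GG.mul_mem tW_mem ih) (GG.inv_mem tW_mem) using 1
        ext y
        · simp [tW]
        · simp only [W.mul_F, W.inv_F, tW]
          push_cast
          simp only [one_mul, zero_add, mul_zero, neg_zero, add_zero]
          rw [pow_succ]; ring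
    convert hc m using 1
    ext y
    · rfl
    · simp

lemma gen_mem (k : ℕ) : gen k ∈ GG := by
  rcases Nat.eq_zero_or_pos k with hk | hk
  · subst hk
    convert tW_mem using 1
    ext y <;> simp [gen, tW, amp]
  · rcases Nat.eq_or_lt_of_le hk with hk1 | hk1
    · have : k = 1 := by omega
      subst this
      convert dW_mem using 1
      ext y <;> simp [gen, dW, amp]
    · convert poly_mem (Polynomial.C ((8 : ℤ) ^ ((k + 1) ^ 2)) *
        Polynomial.Chebyshev.T ℤ ((12 ^ k : ℕ) : ℤ)) using 1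
      have h0 : k ≠ 0 := by omega
      have h1 : k ≠ 1 := by omega
      ext y
      · simp [gen, h0]
      · simp [gen, amp, h0, h1, Polynomial.Chebyshev.map_T]

/-- steps -/
noncomputable def step (x : ℕ × Bool) : GG :=
  if x.2 then ⟨gen x.1, gen_mem x.1⟩ else ⟨gen x.1, gen_mem x.1⟩⁻¹

lemma step_inv (x : ℕ × Bool) : (step x)⁻¹ = step (x.1, !x.2) := by
  rcases x with ⟨k, b⟩
  cases b <;> simp [step]

/-- integer coordinate on the group -/
noncomputable def nn (g : GG) : ℤ := g.1.n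

lemma nn_mul (a b : GG) : nn (a * b) = nn a + nn b := rfl

lemma GG_comm (a b : GG) (ha : nn a = 0) (hb : nn b = 0) : a * b = b * a := by
  unfold nn at ha hb
  apply Subtype.ext
  ext y
  · simp [add_comm]
  · simp [ha, hb, add_comm]

lemma nn_step0t : nn (step (0, true)) = 1 := by simp [nn, step, gen]
lemma nn_step0f : nn (step (0, false)) = -1 := by simp [nn, step, gen]
lemma nn_step (k : ℕ) (b : Bool) (hk : 1 ≤ k) : nn (step (k, b)) = 0 := by
  have h0 : k ≠ 0 := by omega
  cases b <;> simp [nn, step, gen, h0]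

lemma step_F (k : ℕ) (b : Bool) (y : ℝ) :
    (step (k, b)).1.F y = (if b then 1 else -1) * amp k y := by
  cases b with
  | true => simp [step, gen]
  | false =>
    by_cases hk : k = 0
    · subst hk; simp [step, gen, amp]
    · simp [step, gen, hk]

lemma nn_surj : Function.Surjective nn := by
  intro m
  refine ⟨⟨tW, tW_mem⟩ ^ m, ?_⟩
  have h : ∀ g : GG, Multiplicative.ofAdd (nn g) = W.proj g.1 := fun g => rfl
  apply Multiplicative.ofAdd.injective
  rw [h]
  push_cast
  rw [map_zpow]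
  have h2 : W.proj tW = Multiplicative.ofAdd 1 := rfl
  rw [h2, ← ofAdd_zsmul]
  simp

lemma closure_range_step : Subgroup.closure (Set.range step) = ⊤ := by
  rw [eq_top_iff]
  rintro ⟨g, hg⟩ _
  have h1 : ∀ g (hg : g ∈ Subgroup.closure {tW, dW}), (⟨g, hg⟩ : GG) ∈
      Subgroup.closure (Set.range step) := by
    intro g hg
    induction hg using Subgroup.closure_induction with
    | mem x hx =>
      apply Subgroup.subset_closure
      rcases hx with hx | hx
      · refine ⟨(0, true), Subtype.ext ?_⟩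
        have h2 : (step (0, true)).1 = tW := by ext y <;> simp [step, gen, tW, amp]
        exact h2.trans hx.symm
      · refine ⟨(1, true), Subtype.ext ?_⟩
        have h2 : (step (1, true)).1 = dW := by ext y <;> simp [step, gen, dW, amp]
        exact h2.trans hx.symm
    | one => exact Subgroup.one_mem _
    | mul x y hx hy ihx ihy =>
      have := Subgroup.mul_mem _ ihx ihy
      exact this
    | inv x hx ihx =>
      have := Subgroup.inv_mem _ ihx
      exact this
  exact h1 g hg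

end Gens

section Path

lemma walk_F (ω : ℕ → ℕ × Bool) (n : ℕ) (y : ℝ) :
    (walk (fun i => step (ω i)) n).1.F y = ∑ i ∈ Finset.range n,
      Real.exp ((nn (walk (fun i => step (ω i)) i) : ℝ) * y) *
        ((if (ω i).2 then 1 else -1) * amp (ω i).1 y) := by
  induction n with
  | zero => simp [walk]
  | succ n ih =>
    rw [Finset.sum_range_succ, ← ih]
    change (walk (fun i => step (ω i)) n * step (ω n)).1.F y = _
    have h1 : (walk (fun i => step (ω i)) n * step (ω n)).1.F y =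
      (walk (fun i => step (ω i)) n).1.F y +
        Real.exp ((nn (walk (fun i => step (ω i)) n) : ℝ) * y) * (step (ω n)).1.F y := rfl
    rw [h1]
    have h2 : (step (ω n)).1.F y = (if (ω n).2 then 1 else -1) * amp (ω n).1 y :=
      step_F (ω n).1 (ω n).2 y
    rw [h2]

lemma nn_step_abs (x : ℕ × Bool) : |nn (step x)| ≤ 1 := by
  rcases x with ⟨k, b⟩
  rcases Nat.eq_zero_or_pos k with hk | hk
  · subst hk
    cases b
    · rw [nn_step0f]; norm_num
    · rw [nn_step0t]; norm_num
  · rw [nn_step k b hk]; norm_num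

lemma nn_walk_abs (ω : ℕ → ℕ × Bool) (n : ℕ) : |nn (walk (fun i => step (ω i)) n)| ≤ n := by
  induction n with
  | zero => simp [walk, nn]
  | succ n ih =>
    change |nn (walk (fun i => step (ω i)) n * step (ω n))| ≤ _
    rw [nn_mul]
    refine (abs_add_le _ _).trans ?_
    have := nn_step_abs (ω n)
    push_cast
    linarith

lemma amp_eq {θ y : ℝ} (hy : Real.exp y = Real.cos θ) {k : ℕ} (hk : 2 ≤ k) :
    amp k y = (8 : ℝ) ^ ((k + 1) ^ 2) * Real.cos ((12 : ℝ) ^ k * θ) := by
  have h0 : k ≠ 0 := by omega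
  have h1 : k ≠ 1 := by omega
  unfold amp
  rw [if_neg h0, if_neg h1, hy, Polynomial.Chebyshev.T_real_cos]
  push_cast
  rfl

lemma amp_abs {θ y : ℝ} (hy : Real.exp y = Real.cos θ) (k : ℕ) :
    |amp k y| ≤ (8 : ℝ) ^ ((k + 1) ^ 2) := by
  by_cases hk : 2 ≤ k
  · rw [amp_eq hy hk, abs_mul, abs_of_pos (by positivity)]
    calc (8 : ℝ) ^ ((k + 1) ^ 2) * |Real.cos ((12 : ℝ) ^ k * θ)| ≤
        (8 : ℝ) ^ ((k + 1) ^ 2) * 1 :=
          mul_le_mul_of_nonneg_left (Real.abs_cos_le_one _) (by positivity)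
      _ = _ := mul_one _
  · have h8 : (1:ℝ) ≤ (8 : ℝ) ^ ((k + 1) ^ 2) := one_le_pow₀ (by norm_num)
    have : k = 0 ∨ k = 1 := by omega
    rcases this with rfl | rfl
    · simp only [amp, if_true, abs_zero]; linarith
    · simp only [amp, one_ne_zero, if_false, if_true, abs_one]; exact h8

/-- level `k` is passed too slowly -/
def Slow (ω : ℕ → ℕ × Bool) (k : ℕ) : Prop := ∀ i < k + 2, (ω i).1 ≤ k

/-- level `k` is hit twice early -/
def Tie (ω : ℕ → ℕ × Bool) (k : ℕ) : Prop :=
  ∃ i < k + 2, ∃ j < k + 2, i ≠ j ∧ (ω i).1 = k ∧ (ω j).1 = k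

lemma pathwise (ω : ℕ → ℕ × Bool) (k0 : ℕ) (hk0 : 2 ≤ k0)
    (hslow : ∀ k, k0 ≤ k → ¬ Slow ω k) (htie : ∀ k, k0 ≤ k → ¬ Tie ω k) :
    ∃ y : ℝ, ∀ n, k0 + 2 ≤ n → 0 < (walk (fun i => step (ω i)) n).1.F y := by
  obtain ⟨θ, hθ, hs⟩ := exists_theta (fun k => (ω (sInf {i | (ω i).1 = k})).2)
  have hcos0 : 0 < Real.cos θ := by linarith
  refine ⟨Real.log (Real.cos θ), ?_⟩
  set y := Real.log (Real.cos θ) with hy
  have hexp : Real.exp y = Real.cos θ := Real.exp_log hcos0
  have hylow : -Real.log 2 ≤ y := by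
    rw [hy, ← Real.log_inv]
    apply Real.log_le_log (by norm_num)
    linarith
  have hyup : y ≤ 0 := by
    rw [hy]; exact Real.log_nonpos hcos0.le (Real.cos_le_one θ)
  have hlog2 : 0 < Real.log 2 := Real.log_pos (by norm_num)
  have hexpm : ∀ n : ℕ, ∀ m : ℤ, |m| ≤ n → (1 / 2 : ℝ) ^ n ≤ Real.exp (m * y) ∧
      Real.exp (m * y) ≤ 2 ^ n := by
    intro n m hm
    have h1 : |(m : ℝ) * y| ≤ n * Real.log 2 := by
      rw [abs_mul]
      have ha : |(m : ℝ)| ≤ n := by exact_mod_cast hm
      have hb : |y| ≤ Real.log 2 := by rw [abs_le]; constructor <;> linarith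
      exact mul_le_mul ha hb (abs_nonneg _) (by positivity)
    have h2 := abs_le.1 h1
    have e2 : (2:ℝ) ^ n = Real.exp (n * Real.log 2) := by
      rw [Real.exp_nat_mul, Real.exp_log (by norm_num)]
    have e1 : (1 / 2 : ℝ) ^ n = Real.exp (-(n * Real.log 2)) := by
      rw [Real.exp_neg, ← e2]; simp
    rw [e1, e2]
    exact ⟨Real.exp_le_exp.2 h2.1, Real.exp_le_exp.2 h2.2⟩
  intro n hn
  set K := (Finset.range n).sup (fun i => (ω i).1) with hK
  have hle : ∀ i, i < n → (ω i).1 ≤ K := fun i hi =>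
    Finset.le_sup (f := fun i => (ω i).1) (Finset.mem_range.2 hi)
  have hKk0 : k0 + 1 ≤ K := by
    have := hslow k0 le_rfl
    unfold Slow at this
    push Not at this
    obtain ⟨i, hi, hik⟩ := this
    have := hle i (by omega)
    omega
  obtain ⟨i0, hi0, hi0K⟩ : ∃ i0 < n, (ω i0).1 = K := by
    obtain ⟨i, hi, hiK⟩ := Finset.exists_mem_eq_sup (Finset.range n)
      ⟨0, Finset.mem_range.2 (by omega)⟩ (fun i => (ω i).1)
    exact ⟨i, Finset.mem_range.1 hi, hiK.symm⟩
  have hnK : n ≤ K + 1 := by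
    by_contra hcon
    push Not at hcon
    apply hslow K (by omega)
    intro i hi
    exact hle i (by omega)
  have huniq : ∀ i, i < n → i ≠ i0 → (ω i).1 < K := by
    intro i hi hne
    refine lt_of_le_of_ne (hle i hi) ?_
    intro heq
    apply htie K (by omega)
    exact ⟨i, by omega, i0, by omega, hne, heq, hi0K⟩
  have hinf : sInf {i | (ω i).1 = K} = i0 := by
    by_contra hne
    have h1 : sInf {i | (ω i).1 = K} ∈ {i | (ω i).1 = K} := Nat.sInf_mem ⟨i0, hi0K⟩
    have h2 : sInf {i | (ω i).1 = K} ≤ i0 := Nat.sInf_le hi0K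
    have h3 := huniq _ (lt_of_le_of_lt h2 hi0) hne
    have h4 : (ω (sInf {i | (ω i).1 = K})).1 = K := h1
    omega
  have hsK := hs K (by omega)
  simp only [hinf] at hsK
  rw [walk_F, ← Finset.add_sum_erase _ _ (Finset.mem_range.2 hi0)]
  -- main term
  have hmain : (1 / 2 : ℝ) ^ n * (8 ^ ((K + 1) ^ 2) / 2) ≤
      Real.exp ((nn (walk (fun i => step (ω i)) i0) : ℝ) * y) *
        ((if (ω i0).2 then 1 else -1) * amp (ω i0).1 y) := by
    have h1 := (hexpm n (nn (walk (fun i => step (ω i)) i0)) (by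
      refine (nn_walk_abs ω i0).trans ?_
      exact_mod_cast hi0.le)).1
    have h2 : (8:ℝ) ^ ((K + 1) ^ 2) / 2 ≤ (if (ω i0).2 then 1 else -1) * amp (ω i0).1 y := by
      rw [hi0K, amp_eq hexp (by omega)]
      calc (8:ℝ) ^ ((K + 1) ^ 2) / 2 = 8 ^ ((K + 1) ^ 2) * (1 / 2) := by ring
        _ ≤ 8 ^ ((K + 1) ^ 2) * ((if (ω i0).2 then 1 else -1) *
            Real.cos ((12 : ℝ) ^ K * θ)) := mul_le_mul_of_nonneg_left hsK (by positivity)
        _ = _ := by ring
    exact mul_le_mul h1 h2 (by positivity) (Real.exp_pos _).le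
  -- other terms
  have hother : ∀ i ∈ (Finset.range n).erase i0, -((2:ℝ) ^ n * 8 ^ (K ^ 2)) ≤
      Real.exp ((nn (walk (fun i => step (ω i)) i) : ℝ) * y) *
        ((if (ω i).2 then 1 else -1) * amp (ω i).1 y) := by
    intro i hi
    rw [Finset.mem_erase, Finset.mem_range] at hi
    have h1 := (hexpm n (nn (walk (fun i => step (ω i)) i)) (by
      refine (nn_walk_abs ω i).trans ?_
      exact_mod_cast hi.2.le)).2
    have h2 : |(if (ω i).2 then (1:ℝ) else -1) * amp (ω i).1 y| ≤ 8 ^ (K ^ 2) := by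
      rw [abs_mul]
      have h3 : |(if (ω i).2 then (1:ℝ) else -1)| = 1 := by split_ifs <;> simp
      rw [h3, one_mul]
      refine (amp_abs hexp _).trans ?_
      apply pow_le_pow_right₀ (by norm_num)
      have := huniq i hi.2 hi.1
      exact Nat.pow_le_pow_left (by omega) 2
    have h4 : |Real.exp ((nn (walk (fun i => step (ω i)) i) : ℝ) * y) *
        ((if (ω i).2 then 1 else -1) * amp (ω i).1 y)| ≤ 2 ^ n * 8 ^ (K ^ 2) := by
      rw [abs_mul, abs_of_pos (Real.exp_pos _)]
      exact mul_le_mul h1 h2 (abs_nonneg _) (by positivity)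
    exact (abs_le.1 h4).1
  have hsum := Finset.sum_le_sum hother
  rw [Finset.sum_const, Finset.card_erase_of_mem (Finset.mem_range.2 hi0), Finset.card_range,
    nsmul_eq_mul] at hsum
  have hn1 : ((n - 1 : ℕ) : ℝ) ≤ (K:ℝ) + 1 := by
    have : n - 1 ≤ K + 1 := by omega
    exact_mod_cast this
  have hK2 : ((K:ℝ) + 1) ≤ 2 ^ K := by
    have : K + 1 ≤ 2 ^ K := Nat.lt_two_pow_self
    exact_mod_cast this
  have h2n : (2:ℝ) ^ n ≤ 2 ^ (K + 1) := pow_le_pow_right₀ (by norm_num) hnK
  have hhalf : (1 / 2 : ℝ) ^ (K + 1) ≤ (1 / 2 : ℝ) ^ n :=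
    pow_le_pow_of_le_one (by norm_num) (by norm_num) hnK
  have h5 : ((n - 1 : ℕ) : ℝ) * (2 ^ n * 8 ^ (K ^ 2)) ≤ 2 ^ K * (2 ^ (K + 1) * 8 ^ (K ^ 2)) := by
    apply mul_le_mul (hn1.trans hK2) _ (by positivity) (by positivity)
    exact mul_le_mul_of_nonneg_right h2n (by positivity)
  have h6 : (1 / 2 : ℝ) ^ (K + 1) * (8 ^ ((K + 1) ^ 2) / 2) ≤
      (1 / 2 : ℝ) ^ n * (8 ^ ((K + 1) ^ 2) / 2) :=
    mul_le_mul_of_nonneg_right hhalf (by positivity)
  have h7 : (2:ℝ) ^ K * (2 ^ (K + 1) * 8 ^ (K ^ 2)) <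
      (1 / 2 : ℝ) ^ (K + 1) * (8 ^ ((K + 1) ^ 2) / 2) := by
    have e1 : (8:ℝ) = 2 ^ 3 := by norm_num
    have e2 : (1 / 2 : ℝ) ^ (K + 1) * (8 ^ ((K + 1) ^ 2) / 2) =
        (1 / 2 : ℝ) ^ (K + 1) * ((2:ℝ) ^ (K + 1) * 2 ^ (3 * (K + 1) ^ 2 - (K + 2))) := by
      congr 1
      rw [e1, ← pow_mul, div_eq_iff (by norm_num), ← pow_add, ← pow_succ]
      congr 1
      have : K + 2 ≤ 3 * (K + 1) ^ 2 := by nlinarith
      omega
    have e4 : (1 / 2 : ℝ) ^ (K + 1) * (2:ℝ) ^ (K + 1) = 1 := by
      rw [← mul_pow]; norm_num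
    rw [e2, ← mul_assoc ((1 / 2 : ℝ) ^ (K + 1)), e4, one_mul]
    rw [e1, ← pow_mul, ← pow_add, ← pow_add]
    apply pow_lt_pow_right₀ (by norm_num)
    have hK1 : 3 ≤ K := by omega
    have e3 : 3 * (K + 1) ^ 2 = 3 * K ^ 2 + 6 * K + 3 := by ring
    rw [e3]
    omega
  have hneg : -(((n - 1 : ℕ) : ℝ) * (2 ^ n * 8 ^ (K ^ 2))) ≤
      ∑ x ∈ (Finset.range n).erase i0, Real.exp ((nn (walk (fun i => step (ω i)) x) : ℝ) * y) *
        ((if (ω x).2 then 1 else -1) * amp (ω x).1 y) := by
    refine le_trans (le_of_eq ?_) hsum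
    ring
  linarith

/-- the sets of elements with positive value at `y` -/
def posSemi (y : ℝ) : Subsemigroup GG where
  carrier := {g | 0 < g.1.F y}
  mul_mem' := by
    intro a b ha hb
    have ha' : 0 < a.1.F y := ha
    have hb' : 0 < b.1.F y := hb
    change 0 < a.1.F y + Real.exp (a.1.n * y) * b.1.F y
    positivity

lemma tail_ne_top (ω : ℕ → ℕ × Bool) (k0 : ℕ) (hk0 : 2 ≤ k0)
    (hslow : ∀ k, k0 ≤ k → ¬ Slow ω k) (htie : ∀ k, k0 ≤ k → ¬ Tie ω k) :
    tailSemigroup (fun i => step (ω i)) (k0 + 2) ≠ ⊤ := by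
  obtain ⟨y, hy⟩ := pathwise ω k0 hk0 hslow htie
  have h1 : tailSemigroup (fun i => step (ω i)) (k0 + 2) ≤ posSemi y := by
    unfold tailSemigroup
    rw [Subsemigroup.closure_le]
    rintro g ⟨m, hm, rfl⟩
    exact hy m hm
  intro htop
  rw [htop] at h1
  have h2 : (1 : GG) ∈ posSemi y := h1 (Subsemigroup.mem_top 1)
  have h3 : 0 < (1 : W).F y := h2
  rw [W.one_F] at h3
  exact lt_irrefl _ h3

end Path

section Weights

open scoped ENNReal

/-- tails of the level distribution -/
noncomputable def rr (k : ℕ) : ℝ := ((k : ℝ) + 1) ^ (-(3 / 4) : ℝ)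

lemma rr_pos (k : ℕ) : 0 < rr k := Real.rpow_pos_of_pos (by positivity) _

lemma rr_lt (k : ℕ) : rr (k + 1) < rr k := by
  unfold rr
  apply Real.rpow_lt_rpow_of_neg (by positivity) _ (by norm_num)
  push_cast; linarith

lemma rr_zero : rr 0 = 1 := by simp [rr]

lemma rr_le_one (k : ℕ) : rr k ≤ 1 := by
  unfold rr
  apply Real.rpow_le_one_of_one_le_of_nonpos
  · have : (0:ℝ) ≤ k := by positivity
    linarith
  · norm_num

/-- weights -/
noncomputable def wt (x : ℕ × Bool) : ℝ := (rr x.1 - rr (x.1 + 1)) / 2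

lemma wt_pos (x : ℕ × Bool) : 0 < wt x := by
  have := rr_lt x.1
  unfold wt; linarith

lemma hasSum_levels : HasSum (fun k => rr k - rr (k + 1)) 1 := by
  rw [hasSum_iff_tendsto_nat_of_nonneg (fun k => by have := rr_lt k; linarith)]
  have h1 : ∀ n, ∑ i ∈ Finset.range n, (rr i - rr (i + 1)) = 1 - rr n := by
    intro n
    rw [Finset.sum_range_sub' (fun i => rr i), rr_zero]
  simp_rw [h1]
  have h2 : Filter.Tendsto rr Filter.atTop (nhds 0) := by
    unfold rr
    have h3 : Filter.Tendsto (fun x : ℝ => x ^ (-(3 / 4) : ℝ)) Filter.atTop (nhds 0) :=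
      tendsto_rpow_neg_atTop (by norm_num)
    apply h3.comp
    exact Filter.tendsto_atTop_add_const_right _ _ tendsto_natCast_atTop_atTop
  simpa using h2.const_sub 1

lemma tsum_wt : ∑' x : ℕ × Bool, ENNReal.ofReal (wt x) = 1 := by
  rw [ENNReal.tsum_prod']
  have h1 : ∀ k : ℕ, ∑' b : Bool, ENNReal.ofReal (wt (k, b)) =
      ENNReal.ofReal (rr k - rr (k + 1)) := by
    intro k
    rw [tsum_bool, ← ENNReal.ofReal_add (wt_pos _).le (wt_pos _).le]
    congr 1
    simp only [wt]; ring
  simp_rw [h1]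
  rw [← ENNReal.ofReal_tsum_of_nonneg (fun k => by have := rr_lt k; linarith)
    hasSum_levels.summable, hasSum_levels.tsum_eq, ENNReal.ofReal_one]

/-- law of the pair (level, sign) -/
noncomputable def rho : PMF (ℕ × Bool) :=
  ⟨fun x => ENNReal.ofReal (wt x), by
    have := (ENNReal.summable (f := fun x : ℕ × Bool => ENNReal.ofReal (wt x))).hasSum
    rwa [tsum_wt] at this⟩

lemma rho_apply (x : ℕ × Bool) : rho x = ENNReal.ofReal (wt x) := rfl

lemma rho_toReal (x : ℕ × Bool) : (rho x).toReal = wt x := by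
  rw [rho_apply, ENNReal.toReal_ofReal (wt_pos x).le]

lemma hasSum_wt : HasSum wt 1 := by
  have h := ENNReal.hasSum_toReal (f := fun x => rho x) (by rw [rho.tsum_coe]; simp)
  rw [← ENNReal.tsum_toReal_eq (fun x => rho.apply_ne_top x), rho.tsum_coe,
    ENNReal.toReal_one] at h
  simpa only [rho_toReal] using h

lemma meas_le (k : ℕ) : rho.toMeasure {x | x.1 ≤ k} = ENNReal.ofReal (1 - rr (k + 1)) := by
  have h1 : {x : ℕ × Bool | x.1 ≤ k} =
      ((Finset.range (k + 1) ×ˢ (Finset.univ : Finset Bool) : Finset (ℕ × Bool)) :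
        Set (ℕ × Bool)) := by
    ext ⟨a, b⟩
    simp
  rw [h1, PMF.toMeasure_apply_finset, Finset.sum_product]
  have h2 : ∀ j : ℕ, ∑ b : Bool, rho (j, b) = ENNReal.ofReal (rr j - rr (j + 1)) := by
    intro j
    rw [Fintype.sum_bool, rho_apply, rho_apply, ← ENNReal.ofReal_add (wt_pos _).le (wt_pos _).le]
    congr 1
    simp only [wt]; ring
  simp_rw [h2]
  rw [← ENNReal.ofReal_sum_of_nonneg (fun j _ => by have := rr_lt j; linarith),
    Finset.sum_range_sub' (fun i => rr i), rr_zero]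

lemma meas_eq (k : ℕ) : rho.toMeasure {x | x.1 = k} = ENNReal.ofReal (rr k - rr (k + 1)) := by
  have h1 : {x : ℕ × Bool | x.1 = k} =
      (({(k, true), (k, false)} : Finset (ℕ × Bool)) : Set (ℕ × Bool)) := by
    ext ⟨a, b⟩
    cases b <;> simp
  rw [h1, PMF.toMeasure_apply_finset, Finset.sum_pair (by simp), rho_apply, rho_apply,
    ← ENNReal.ofReal_add (wt_pos _).le (wt_pos _).le]
  congr 1
  simp only [wt]; ring

lemma rr_diff_le (k : ℕ) : rr k - rr (k + 1) ≤ ((k : ℝ) + 1) ^ (-(7 / 4) : ℝ) := by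
  unfold rr
  set a : ℝ := (k : ℝ) + 1 with ha
  have ha1 : 1 ≤ a := by rw [ha]; have : (0:ℝ) ≤ k := by positivity
                         linarith
  have ha0 : 0 < a := by linarith
  have e1 : (((k + 1 : ℕ) : ℝ) + 1) = a + 1 := by rw [ha]; push_cast; ring
  rw [e1]
  have h1 : (a + 1) ^ (-(3 / 4) : ℝ) = a ^ (-(3 / 4) : ℝ) * (a / (a + 1)) ^ (3 / 4 : ℝ) := by
    rw [Real.div_rpow ha0.le (by linarith), Real.rpow_neg (by linarith), Real.rpow_neg ha0.le]
    have : a ^ (3 / 4 : ℝ) ≠ 0 := (Real.rpow_pos_of_pos ha0 _).ne'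
    field_simp
  have h2 : a / (a + 1) ≤ (a / (a + 1)) ^ (3 / 4 : ℝ) := by
    have h3 : a / (a + 1) ≤ 1 := by rw [div_le_one (by linarith)]; linarith
    have h4 := Real.rpow_le_rpow_of_exponent_ge (x := a / (a + 1)) (y := 1) (z := 3 / 4)
      (by positivity) h3 (by norm_num)
    rwa [Real.rpow_one] at h4
  have h5 : a ^ (-(7 / 4) : ℝ) = a ^ (-(3 / 4) : ℝ) * (1 / a) := by
    rw [one_div, ← Real.rpow_neg_one a, ← Real.rpow_add ha0]
    norm_num
  rw [h1, h5]
  have h6 : 0 < a ^ (-(3 / 4) : ℝ) := Real.rpow_pos_of_pos ha0 _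
  have h7 : 1 - (a / (a + 1)) ^ (3 / 4 : ℝ) ≤ 1 / a := by
    have h8 : 1 - a / (a + 1) = 1 / (a + 1) := by field_simp; ring
    have h9 : 1 / (a + 1) ≤ 1 / a := one_div_le_one_div_of_le ha0 (by linarith)
    linarith
  calc a ^ (-(3 / 4) : ℝ) - a ^ (-(3 / 4) : ℝ) * (a / (a + 1)) ^ (3 / 4 : ℝ) =
      a ^ (-(3 / 4) : ℝ) * (1 - (a / (a + 1)) ^ (3 / 4 : ℝ)) := by ring
    _ ≤ _ := mul_le_mul_of_nonneg_left h7 h6.le

/-- law of the sequence of pairs -/
noncomputable def PP : Measure (ℕ → ℕ × Bool) := Measure.infinitePi (fun _ : ℕ => rho.toMeasure)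

instance : IsProbabilityMeasure PP := by unfold PP; infer_instance

lemma slow_le (k : ℕ) : PP {ω | Slow ω k} ≤ ENNReal.ofReal (40320 * (((k : ℝ) + 1) ^ 2)⁻¹) := by
  have h1 : {ω : ℕ → ℕ × Bool | Slow ω k} =
      Set.pi ((Finset.range (k + 2) : Finset ℕ) : Set ℕ) (fun _ => {x | x.1 ≤ k}) := by
    ext ω
    simp [Slow, Set.mem_pi]
  unfold PP
  rw [h1, Measure.infinitePi_pi _ (fun i _ => MeasurableSet.of_discrete)]
  simp_rw [meas_le]
  rw [Finset.prod_const, Finset.card_range, ← ENNReal.ofReal_pow (by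
    have := rr_le_one (k + 1); linarith)]
  apply ENNReal.ofReal_le_ofReal
  set a : ℝ := (k : ℝ) + 2 with ha
  have ha0 : 0 < a := by positivity
  have e1 : rr (k + 1) = a ^ (-(3 / 4) : ℝ) := by
    unfold rr
    congr 1
    rw [ha]; push_cast; ring
  rw [e1]
  have h2 : 1 - a ^ (-(3 / 4) : ℝ) ≤ Real.exp (-(a ^ (-(3 / 4) : ℝ))) :=
    Real.one_sub_le_exp_neg _
  have h3 : 0 ≤ 1 - a ^ (-(3 / 4) : ℝ) := by
    rw [← e1]; have := rr_le_one (k + 1); linarith
  have h4 : (1 - a ^ (-(3 / 4) : ℝ)) ^ (k + 2) ≤ Real.exp (-(a ^ (1 / 4 : ℝ))) := by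
    calc (1 - a ^ (-(3 / 4) : ℝ)) ^ (k + 2) ≤ (Real.exp (-(a ^ (-(3 / 4) : ℝ)))) ^ (k + 2) :=
          pow_le_pow_left₀ h3 h2 _
      _ = Real.exp (((k + 2 : ℕ) : ℝ) * (-(a ^ (-(3 / 4) : ℝ)))) := by rw [Real.exp_nat_mul]
      _ = Real.exp (-(a ^ (1 / 4 : ℝ))) := by
          congr 1
          have : ((k + 2 : ℕ) : ℝ) = a := by rw [ha]; push_cast; ring
          rw [this]
          have h5 : a * a ^ (-(3 / 4) : ℝ) = a ^ (1 / 4 : ℝ) := by
            nth_rewrite 1 [← Real.rpow_one a]
            rw [← Real.rpow_add ha0]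
            norm_num
          linarith
  refine h4.trans ?_
  have hy : 0 < a ^ (1 / 4 : ℝ) := Real.rpow_pos_of_pos ha0 _
  have h5 := Real.pow_div_factorial_le_exp _ hy.le 8
  have h6 : (a ^ (1 / 4 : ℝ)) ^ 8 = a ^ 2 := by
    rw [← Real.rpow_natCast, ← Real.rpow_mul ha0.le, ← Real.rpow_natCast]
    norm_num
  rw [h6] at h5
  have h7 : ((Nat.factorial 8 : ℕ) : ℝ) = 40320 := by norm_num [Nat.factorial]
  rw [h7] at h5
  rw [Real.exp_neg]
  have h8 : (Real.exp (a ^ (1 / 4 : ℝ)))⁻¹ ≤ (a ^ 2 / 40320)⁻¹ :=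
    inv_anti₀ (by positivity) h5
  refine h8.trans ?_
  rw [inv_div, div_eq_mul_inv]
  apply mul_le_mul_of_nonneg_left _ (by norm_num)
  apply inv_anti₀ (by positivity)
  apply pow_le_pow_left₀ (by positivity)
  rw [ha]; linarith

lemma tie_le (k : ℕ) : PP {ω | Tie ω k} ≤ ENNReal.ofReal (4 * ((k : ℝ) + 1) ^ (-(3 / 2) : ℝ)) := by
  have hpr : 0 ≤ rr k - rr (k + 1) := by have := rr_lt k; linarith
  have h1 : {ω : ℕ → ℕ × Bool | Tie ω k} ⊆
      ⋃ p ∈ ((Finset.range (k + 2) ×ˢ Finset.range (k + 2)).filter (fun p => p.1 ≠ p.2)),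
        {ω | (ω p.1).1 = k ∧ (ω p.2).1 = k} := by
    rintro ω ⟨i, hi, j, hj, hij, h1, h2⟩
    simp only [Set.mem_iUnion]
    refine ⟨(i, j), ?_, h1, h2⟩
    simp [hi, hj, hij]
  have h2 : ∀ p ∈ ((Finset.range (k + 2) ×ˢ Finset.range (k + 2)).filter
      (fun p : ℕ × ℕ => p.1 ≠ p.2)),
      PP {ω | (ω p.1).1 = k ∧ (ω p.2).1 = k} ≤ ENNReal.ofReal ((rr k - rr (k + 1)) ^ 2) := by
    rintro ⟨i, j⟩ hp
    simp only [Finset.mem_filter] at hp
    have e : {ω : ℕ → ℕ × Bool | (ω i).1 = k ∧ (ω j).1 = k} =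
        Set.pi (({i, j} : Finset ℕ) : Set ℕ) (fun _ => {x | x.1 = k}) := by
      ext ω
      simp
    unfold PP
    simp only
    rw [e, Measure.infinitePi_pi _ (fun i _ => MeasurableSet.of_discrete)]
    simp_rw [meas_eq]
    rw [Finset.prod_const, Finset.card_pair hp.2, ENNReal.ofReal_pow hpr]
  have h3 : PP {ω | Tie ω k} ≤ ∑ p ∈ ((Finset.range (k + 2) ×ˢ Finset.range (k + 2)).filter
      (fun p : ℕ × ℕ => p.1 ≠ p.2)), ENNReal.ofReal ((rr k - rr (k + 1)) ^ 2) :=
    (measure_mono h1).trans ((measure_biUnion_finset_le _ _).trans (Finset.sum_le_sum h2))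
  refine h3.trans ?_
  rw [Finset.sum_const, nsmul_eq_mul]
  have h4 : ((((Finset.range (k + 2) ×ˢ Finset.range (k + 2)).filter
      (fun p : ℕ × ℕ => p.1 ≠ p.2)).card : ℕ) : ℝ≥0∞) ≤ ENNReal.ofReal (((k : ℝ) + 2) ^ 2) := by
    have : ((Finset.range (k + 2) ×ˢ Finset.range (k + 2)).filter
      (fun p : ℕ × ℕ => p.1 ≠ p.2)).card ≤ (k + 2) * (k + 2) := by
      refine (Finset.card_filter_le _ _).trans ?_
      rw [Finset.card_product, Finset.card_range]
    calc ((((Finset.range (k + 2) ×ˢ Finset.range (k + 2)).filter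
      (fun p : ℕ × ℕ => p.1 ≠ p.2)).card : ℕ) : ℝ≥0∞) ≤ (((k + 2) * (k + 2) : ℕ) : ℝ≥0∞) := by
          exact_mod_cast this
      _ = ENNReal.ofReal (((k : ℝ) + 2) ^ 2) := by
          rw [← ENNReal.ofReal_natCast]
          congr 1
          push_cast; ring
  calc _ ≤ ENNReal.ofReal (((k : ℝ) + 2) ^ 2) * ENNReal.ofReal ((rr k - rr (k + 1)) ^ 2) := by
        gcongr
    _ = ENNReal.ofReal (((k : ℝ) + 2) ^ 2 * (rr k - rr (k + 1)) ^ 2) := by
        rw [ENNReal.ofReal_mul (by positivity)]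
    _ ≤ _ := by
        apply ENNReal.ofReal_le_ofReal
        have ha0 : (0:ℝ) < (k : ℝ) + 1 := by positivity
        have h5 : (rr k - rr (k + 1)) ^ 2 ≤ (((k : ℝ) + 1) ^ (-(7 / 4) : ℝ)) ^ 2 :=
          pow_le_pow_left₀ hpr (rr_diff_le k) 2
        have h6 : ((k : ℝ) + 2) ^ 2 ≤ 4 * ((k : ℝ) + 1) ^ 2 := by
          have : (0:ℝ) ≤ k := by positivity
          nlinarith
        calc ((k : ℝ) + 2) ^ 2 * (rr k - rr (k + 1)) ^ 2 ≤
            (4 * ((k : ℝ) + 1) ^ 2) * (((k : ℝ) + 1) ^ (-(7 / 4) : ℝ)) ^ 2 :=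
              mul_le_mul h6 h5 (by positivity) (by positivity)
          _ = 4 * ((k : ℝ) + 1) ^ (-(3 / 2) : ℝ) := by
              rw [mul_assoc]
              congr 1
              rw [← Real.rpow_natCast, ← Real.rpow_natCast, ← Real.rpow_mul ha0.le,
                ← Real.rpow_add ha0]
              norm_num

lemma ae_good : ∀ᵐ ω ∂PP, ∃ k0, 2 ≤ k0 ∧ (∀ k, k0 ≤ k → ¬ Slow ω k) ∧
    (∀ k, k0 ≤ k → ¬ Tie ω k) := by
  have hs1 : Summable (fun k : ℕ => (40320 : ℝ) * (((k : ℝ) + 1) ^ 2)⁻¹) := by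
    apply Summable.mul_left
    have := (summable_nat_add_iff 1).2 (Real.summable_nat_pow_inv.2 (show 1 < 2 by norm_num))
    simpa using this
  have hs2 : Summable (fun k : ℕ => (4 : ℝ) * ((k : ℝ) + 1) ^ (-(3 / 2) : ℝ)) := by
    apply Summable.mul_left
    have := (summable_nat_add_iff 1).2 (Real.summable_nat_rpow.2
      (show (-(3 / 2) : ℝ) < -1 by norm_num))
    simpa using this
  have h1 : ∑' k, PP {ω | Slow ω k} ≠ ∞ := by
    apply ne_top_of_le_ne_top _ (ENNReal.tsum_le_tsum slow_le)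
    rw [← ENNReal.ofReal_tsum_of_nonneg (fun k => by positivity) hs1]
    exact ENNReal.ofReal_ne_top
  have h2 : ∑' k, PP {ω | Tie ω k} ≠ ∞ := by
    apply ne_top_of_le_ne_top _ (ENNReal.tsum_le_tsum tie_le)
    rw [← ENNReal.ofReal_tsum_of_nonneg (fun k => by positivity) hs2]
    exact ENNReal.ofReal_ne_top
  filter_upwards [ae_eventually_notMem h1, ae_eventually_notMem h2] with ω ha hb
  rw [Filter.eventually_atTop] at ha hb
  obtain ⟨a, ha⟩ := ha
  obtain ⟨b, hb⟩ := hb
  exact ⟨max 2 (max a b), le_max_left _ _,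
    fun k hk => ha k ((le_max_left a b).trans ((le_max_right 2 _).trans hk)),
    fun k hk => hb k ((le_max_right a b).trans ((le_max_right 2 _).trans hk))⟩

end Weights

section Final

/-- the step law -/
noncomputable def mu : PMF GG := rho.map step

open Classical in
lemma mu_apply (g : GG) : mu g = ∑' x, if g = step x then rho x else 0 := by
  unfold mu
  rw [PMF.map_apply]
  apply tsum_congr
  intro x
  congr

open Classical in
lemma mu_symmetric : SymmetricLaw mu := by
  intro g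
  rw [mu_apply, mu_apply]
  let e : ℕ × Bool ≃ ℕ × Bool := Equiv.prodCongr (Equiv.refl ℕ) Equiv.boolNot
  rw [← e.tsum_eq (fun x => if g⁻¹ = step x then rho x else 0)]
  apply tsum_congr
  rintro ⟨k, b⟩
  have h1 : e (k, b) = (k, !b) := rfl
  have h2 : step (k, !b) = (step (k, b))⁻¹ := (step_inv (k, b)).symm
  rw [h1, h2]
  have h3 : rho (k, !b) = rho (k, b) := rfl
  rw [h3]
  simp only [inv_inj]

lemma mu_support : mu.support = Set.range step := by
  unfold mu
  rw [PMF.support_map]
  have : rho.support = Set.univ := by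
    ext x
    simp only [PMF.mem_support_iff, Set.mem_univ, iff_true]
    rw [rho_apply]
    have := wt_pos x
    simp [this]
  rw [this, Set.image_univ]

lemma mu_nondegenerate : NondegenerateLaw mu := by
  unfold NondegenerateLaw
  rw [mu_support]
  exact closure_range_step

lemma mu_harm {f : GG → ℝ} {C : ℝ} (hC : ∀ g, |f g| ≤ C)
    (hf : ∀ g, f g = ∑' h, (mu h).toReal * f (g * h)) : Harm step wt f := by
  intro g
  let _ : MeasurableSpace GG := ⊤
  have _ : MeasurableSingletonClass GG := ⟨fun _ => trivial⟩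
  have hm : Measurable step := Measurable.of_discrete
  have hmap : mu.toMeasure = rho.toMeasure.map step := by
    unfold mu
    rw [PMF.toMeasure_map step rho hm]
  have hmeas : ∀ g : GG, AEStronglyMeasurable (fun h => f (g * h)) mu.toMeasure := by
    intro g
    have h1 : Measurable (fun h => f (g * h)) := fun _ _ => trivial
    exact h1.stronglyMeasurable.aestronglyMeasurable
  have hint : Integrable (fun h => f (g * h)) mu.toMeasure :=
    Integrable.of_bound (hmeas g) C (Filter.Eventually.of_forall (fun h => by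
      rw [Real.norm_eq_abs]; exact hC _))
  have hint2 : Integrable (fun x => f (g * step x)) rho.toMeasure :=
    Integrable.of_bound (Measurable.of_discrete).stronglyMeasurable.aestronglyMeasurable C
      (Filter.Eventually.of_forall (fun x => by rw [Real.norm_eq_abs]; exact hC _))
  have h1 := PMF.integral_eq_tsum mu (fun h => f (g * h)) hint
  have h2 := PMF.integral_eq_tsum rho (fun x => f (g * step x)) hint2
  rw [hf g]
  simp only [smul_eq_mul] at h1 h2
  rw [← h1, hmap, integral_map hm.aemeasurable (by rw [← hmap]; exact hmeas g), h2]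
  simp only [rho_toReal]

lemma mu_liouville : LiouvilleLaw mu := by
  rintro f ⟨C, hC⟩ hf g h
  exact liouville_of (nn := nn) wt_pos hasSum_wt nn_mul GG_comm nn_step0t nn_step0f nn_step rfl
    nn_surj step_inv closure_range_step hC (mu_harm hC hf) g h

lemma mu_not_AR : ¬ AlgebraicallyRecurrent mu := by
  intro hAR
  let _ : MeasurableSpace GG := ⊤
  have hm : Measurable step := Measurable.of_discrete
  have hmap : mu.toMeasure = rho.toMeasure.map step := by
    unfold mu
    rw [PMF.toMeasure_map step rho hm]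
  have hprod : incrementLaw mu = PP.map (fun (ω : ℕ → ℕ × Bool) i => step (ω i)) := by
    unfold incrementLaw PP
    rw [Measure.infinitePi_map_pi (μ := fun _ : ℕ => rho.toMeasure) (f := fun _ : ℕ => step)
      (fun _ => hm)]
    simp only [hmap]
  have hmeas : Measurable (fun (ω : ℕ → ℕ × Bool) i => step (ω i)) := by
    apply measurable_pi_lambda
    intro i
    exact hm.comp (measurable_pi_apply i)
  have h1 : ∀ n : ℕ, 1 ≤ n → ∀ᵐ ω ∂PP, tailSemigroup (fun i => step (ω i)) n = ⊤ := by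
    intro n hn
    have h2 := hAR n hn
    rw [hprod] at h2
    exact ae_of_ae_map hmeas.aemeasurable h2
  have h2 : ∀ᵐ ω ∂PP, ∀ n : ℕ, 1 ≤ n → tailSemigroup (fun i => step (ω i)) n = ⊤ := by
    rw [ae_all_iff]
    intro n
    by_cases hn : 1 ≤ n
    · filter_upwards [h1 n hn] with ω hω _
      exact hω
    · exact Filter.Eventually.of_forall (fun _ h => absurd h hn)
  obtain ⟨ω, hω1, k0, hk0, hslow, htie⟩ := (h2.and ae_good).exists
  exact tail_ne_top ω k0 hk0 hslow htie (hω1 (k0 + 2) (by omega))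

lemma countable_GG : Countable GG := by
  have hsurj : Function.Surjective (fun l : List (ℕ × Bool) => (l.map step).prod) := by
    intro g
    have hg : g ∈ Subgroup.closure (Set.range step) := by rw [closure_range_step]; trivial
    induction hg using Subgroup.closure_induction with
    | mem x hx =>
      obtain ⟨y, rfl⟩ := hx
      exact ⟨[y], by simp⟩
    | one => exact ⟨[], by simp⟩
    | mul x y _ _ ihx ihy =>
      obtain ⟨l, hl⟩ := ihx
      obtain ⟨l', hl'⟩ := ihy
      exact ⟨l ++ l', by simp only [List.map_append, List.prod_append]; rw [← hl, ← hl']⟩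
    | inv x _ ihx =>
      obtain ⟨l, hl⟩ := ihx
      refine ⟨(l.map (fun x => (x.1, !x.2))).reverse, ?_⟩
      simp only at hl ⊢
      rw [← hl, List.prod_inv_reverse, List.map_reverse, List.map_map, List.map_map]
      congr 2
      apply List.map_congr_left
      intro a _
      exact (step_inv a).symm
  exact hsurj.countable

lemma fg_GG : Group.FG GG := by
  classical
  rw [Group.fg_iff_subgroup_fg]
  exact ⟨{tW, dW}, by simp [GG]⟩

lemma solvable_GG : Group.IsSolvable GG := by
  have := W.solvableW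
  infer_instance

/-- `-x log x` is subadditive -/
lemma negMulLog_tsum_le {ι : Type} {p : ι → ℝ} (hp : ∀ i, 0 ≤ p i) (hs : Summable p)
    (hh : Summable fun i => Real.negMulLog (p i)) :
    Real.negMulLog (∑' i, p i) ≤ ∑' i, Real.negMulLog (p i) := by
  set S := ∑' i, p i with hS
  have hle : ∀ i, p i ≤ S := fun i => hs.le_tsum i (fun j _ => hp j)
  have hpt : ∀ i, p i * (-Real.log S) ≤ Real.negMulLog (p i) := by
    intro i
    rcases (hp i).eq_or_lt with h | h
    · rw [← h]; simp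
    · unfold Real.negMulLog
      have := Real.log_le_log h (hle i)
      nlinarith
  calc Real.negMulLog S = S * (-Real.log S) := by unfold Real.negMulLog; ring
    _ = ∑' i, p i * (-Real.log S) := by rw [tsum_mul_right]
    _ ≤ ∑' i, Real.negMulLog (p i) := (hs.mul_right _).tsum_le_tsum hpt hh

lemma wt_le (x : ℕ × Bool) : wt x ≤ ((x.1 : ℝ) + 1) ^ (-(7 / 4) : ℝ) := by
  have h1 := rr_diff_le x.1
  have h2 : 0 ≤ ((x.1 : ℝ) + 1) ^ (-(7 / 4) : ℝ) := Real.rpow_nonneg (by positivity) _
  unfold wt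
  linarith

lemma negMulLog_wt_le (x : ℕ × Bool) :
    Real.negMulLog (wt x) ≤ 4 * ((x.1 : ℝ) + 1) ^ (-(21 / 16) : ℝ) := by
  have h0 := wt_pos x
  have h1 : -Real.log (wt x) ≤ 4 * (wt x) ^ (-(1 / 4) : ℝ) := by
    have h2 := Real.log_le_rpow_div (inv_pos.2 h0).le (show (0 : ℝ) < 1 / 4 by norm_num)
    rw [Real.log_inv, Real.inv_rpow h0.le, ← Real.rpow_neg h0.le] at h2
    linarith
  have h3 : Real.negMulLog (wt x) ≤ 4 * (wt x) ^ (3 / 4 : ℝ) := by
    have h4 : (wt x) ^ (3 / 4 : ℝ) = wt x * (wt x) ^ (-(1 / 4) : ℝ) := by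
      rw [← Real.rpow_one_add' h0.le (by norm_num)]
      norm_num
    rw [h4]
    unfold Real.negMulLog
    nlinarith
  have h5 : (wt x) ^ (3 / 4 : ℝ) ≤ ((x.1 : ℝ) + 1) ^ (-(21 / 16) : ℝ) := by
    have h6 := Real.rpow_le_rpow h0.le (wt_le x) (show (0 : ℝ) ≤ 3 / 4 by norm_num)
    rw [← Real.rpow_mul (by positivity)] at h6
    norm_num at h6 ⊢
    exact h6
  linarith

lemma wt_le_one (x : ℕ × Bool) : wt x ≤ 1 := by
  have h1 := rr_le_one x.1
  have h2 := rr_pos (x.1 + 1)
  unfold wt
  linarith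

lemma summable_negMulLog_wt : Summable fun x : ℕ × Bool => Real.negMulLog (wt x) := by
  have h1 : Summable fun k : ℕ => 4 * ((k : ℝ) + 1) ^ (-(21 / 16) : ℝ) := by
    refine Summable.mul_left _ ?_
    have h2 : Summable fun k : ℕ => (k : ℝ) ^ (-(21 / 16) : ℝ) :=
      Real.summable_nat_rpow.2 (by norm_num)
    have h3 := (summable_nat_add_iff 1).2 h2
    refine h3.congr fun k => ?_
    push_cast
    rfl
  have h4 : Summable fun x : ℕ × Bool => 4 * ((x.1 : ℝ) + 1) ^ (-(21 / 16) : ℝ) := by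
    rw [summable_prod_of_nonneg (fun x => by positivity)]
    refine ⟨fun k => (hasSum_fintype _).summable, ?_⟩
    refine (h1.mul_left 2).congr fun k => ?_
    rw [tsum_fintype]
    simp only [Fintype.sum_bool]
    ring
  exact Summable.of_nonneg_of_le (fun x => Real.negMulLog_nonneg (wt_pos x).le (wt_le_one x))
    negMulLog_wt_le h4

lemma mu_entropy : FiniteEntropy mu := by
  classical
  let e := Equiv.sigmaFiberEquiv step
  have h1 : Summable fun y : (Σ g, {x // step x = g}) => Real.negMulLog (wt (e y)) :=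
    (e.summable_iff (f := fun x => Real.negMulLog (wt x))).2 summable_negMulLog_wt
  have h1w : Summable fun y : (Σ g, {x // step x = g}) => wt (e y) :=
    (e.summable_iff (f := wt)).2 hasSum_wt.summable
  have h2 : Summable fun g => ∑' x : {x // step x = g}, Real.negMulLog (wt x) := h1.sigma
  have h3 : ∀ g, (mu g).toReal = ∑' x : {x // step x = g}, wt x := by
    intro g
    have h4 : mu g = ∑' x : {x // step x = g}, rho x := by
      rw [mu_apply, ← tsum_subtype_eq_of_support_subset (s := {x | step x = g})]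
      · refine tsum_congr fun x => ?_
        rw [if_pos x.2.symm]
      · intro x hx
        by_contra hne
        exact hx (if_neg fun h => hne h.symm)
    rw [h4, ENNReal.tsum_toReal_eq (f := fun x : {x // step x = g} => rho x)
      (fun x => rho.apply_ne_top x)]
    exact tsum_congr fun x => rho_toReal x
  refine Summable.of_nonneg_of_le (fun g => ?_) (fun g => ?_) h2
  · refine Real.negMulLog_nonneg ENNReal.toReal_nonneg ?_
    exact ENNReal.toReal_le_of_le_ofReal zero_le_one (by simpa using mu.coe_le_one g)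
  · rw [h3]
    exact negMulLog_tsum_le (fun x => (wt_pos x).le) (h1w.sigma_factor g) (h1.sigma_factor g)

end Final


theorem main : ∃ (G : Type) (_ : Group G), Countable G ∧ Group.FG G ∧ Group.IsSolvable G ∧
    ∃ μ : PMF G, SymmetricLaw μ ∧ NondegenerateLaw μ ∧ FiniteEntropy μ ∧ LiouvilleLaw μ ∧
      ¬ AlgebraicallyRecurrent μ :=
  ⟨GG, inferInstance, countable_GG, fg_GG, solvable_GG, mu, mu_symmetric, mu_nondegenerate,
    mu_entropy, mu_liouville, mu_not_AR⟩

end Pool.Agent.Lib.MP_a29a94_pr.FE
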